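import Pool.Agent.Helper57.QZ.Stmts
import Pool.Agent.Helper71.CP.M2

/-! Row SM5 of project QZ (MP_818aa8_nt): lower bound for the tilted mean of `Re Vy`. -/

set_option autoImplicit false

namespace Pool.Agent.Helper57.QZ

open Finset

theorem sm5_of (h2 : ST_VM2) (h3 : ST_VM3) : ST_SM5 := by
  refine ⟨1 / 2 ^ 21, 2 ^ 20, by norm_num, by norm_num, ?_⟩
  intro y σ z hσ hz hzy
  obtain ⟨hσ1, hσ2⟩ := hσ
  have hz0 : (0 : ℝ) < z := by linarith [show (0 : ℝ) < 2 ^ 20 by norm_num]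
  have hz32 : (2 : ℝ) ^ 20 ≤ z := hz
  obtain ⟨s, hs⟩ : ∃ s : ℝ, s = z ^ σ := ⟨_, rfl⟩
  have hs0 : 0 < s := by rw [hs]; exact Real.rpow_pos_of_pos hz0 _
  obtain ⟨f, hf⟩ : ∃ f : ℕ → ℝ, f = fun p => aa σ p * Real.log p * rr (s * aa σ p) := ⟨_, rfl⟩
  have hom : omy y σ (z ^ σ) = ∑ p ∈ Nat.primesBelow (y + 1), f p := by
    rw [← hs, omy, hf]
    exact Finset.sum_coe_sort (Nat.primesBelow (y + 1))
      (fun p : ℕ => aa σ p * Real.log p * rr (s * aa σ p))
  have haa : ∀ p : ℕ, 1 ≤ p → 0 < aa σ p := fun p hp => by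
    unfold aa
    exact Real.rpow_pos_of_pos (by exact_mod_cast hp) _
  have hf0 : ∀ p ∈ Nat.primesBelow (y + 1), 0 ≤ f p := by
    intro p hp
    have hpp := (Nat.mem_primesBelow.1 hp).2
    have h1 := haa p hpp.one_le
    rw [hf]
    exact mul_nonneg (mul_nonneg h1.le (Real.log_natCast_nonneg p))
      (h3.2 _ (mul_pos hs0 h1).le).1
  -- the range `p ≤ W`
  obtain ⟨W, hW⟩ : ∃ W : ℕ, W = ⌊z / 16⌋₊ := ⟨_, rfl⟩
  have hWle : (W : ℝ) ≤ z / 16 := by
    rw [hW]
    exact Nat.floor_le (by positivity)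
  have hWge : z / 32 ≤ W := by
    have h1 : z / 16 < (W : ℝ) + 1 := by
      rw [hW]
      exact Nat.lt_floor_add_one _
    have h4 : (2 : ℝ) ^ 20 = 1048576 := by norm_num
    rw [h4] at hz32
    linarith
  have hW0 : (0 : ℝ) < W := lt_of_lt_of_le (by positivity) hWge
  have hWbig : (2 : ℝ) ^ 15 ≤ W := by
    have h4 : (2 : ℝ) ^ 15 = 2 ^ 20 / 32 := by norm_num
    rw [h4]
    exact le_trans (div_le_div_of_nonneg_right hz32 (by norm_num)) hWge
  have hsub : Helper56.CP.PP W ⊆ Nat.primesBelow (y + 1) := by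
    intro p hp
    rw [Helper56.CP.PP, mem_filter, mem_range] at hp
    rw [Nat.mem_primesBelow]
    refine ⟨?_, hp.2⟩
    have h1 : (p : ℝ) ≤ W := by exact_mod_cast (Nat.lt_succ_iff.1 hp.1)
    have h4 : (p : ℝ) ≤ y := by linarith
    have h5 : p ≤ y := by exact_mod_cast h4
    omega
  -- lower bound of the terms
  have hterm : ∀ p ∈ Helper56.CP.PP W, 1 / 2 * (aa σ p * Real.log p) ≤ f p := by
    intro p hp
    rw [Helper56.CP.PP, mem_filter, mem_range] at hp
    have hpp := hp.2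
    have hp0 : (0 : ℝ) < p := by exact_mod_cast hpp.pos
    have hpW : (p : ℝ) ≤ W := by exact_mod_cast (Nat.lt_succ_iff.1 hp.1)
    have hx : s * aa σ p = (z / p) ^ σ := by
      rw [hs, aa, Real.div_rpow hz0.le hp0.le, Real.rpow_neg hp0.le]
      ring
    have h16 : (16 : ℝ) ≤ z / p := by
      rw [le_div_iff₀ hp0]
      linarith
    have hx4 : (4 : ℝ) ≤ s * aa σ p := by
      rw [hx]
      calc (4 : ℝ) = (16 : ℝ) ^ (1 / 2 : ℝ) := by
            rw [show (16 : ℝ) = 4 ^ (2 : ℝ) by norm_num, ← Real.rpow_mul (by norm_num)]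
            norm_num
        _ ≤ (16 : ℝ) ^ σ := Real.rpow_le_rpow_of_exponent_le (by norm_num) hσ1
        _ ≤ (z / p) ^ σ := Real.rpow_le_rpow (by norm_num) h16 (by linarith)
    have h4 := (h2 (s * aa σ p) (by linarith)).1
    have h5 : 2 / (s * aa σ p) ≤ 1 / 2 := by
      rw [div_le_iff₀ (by linarith)]
      linarith
    have h6 : 1 / 2 ≤ rr (s * aa σ p) := by linarith
    have h7 : 0 ≤ aa σ p * Real.log p :=
      mul_nonneg (haa p hpp.one_le).le (Real.log_natCast_nonneg p)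
    rw [hf]
    simp only
    nlinarith
  have hlogp : ∀ p ∈ Helper56.CP.PP W, 0 ≤ Real.log p / p := fun p _ =>
    div_nonneg (Real.log_natCast_nonneg p) (Nat.cast_nonneg p)
  -- (a)
  have hA : 1 / 2 * Helper56.CP.mtA W ≤ omy y σ (z ^ σ) := by
    rw [hom, Helper56.CP.mtA, mul_sum]
    refine le_trans (sum_le_sum fun p hp => ?_) (sum_le_sum_of_subset_of_nonneg hsub
      fun p hp _ => hf0 p hp)
    refine le_trans ?_ (hterm p hp)
    rw [Helper56.CP.PP, mem_filter] at hp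
    have hp1 : (1 : ℝ) ≤ p := by exact_mod_cast hp.2.one_le
    have h4 : 1 / (p : ℝ) ≤ aa σ p := by
      unfold aa
      rw [one_div, ← Real.rpow_neg_one]
      exact Real.rpow_le_rpow_of_exponent_le hp1 (by linarith)
    have h5 : Real.log p / p ≤ aa σ p * Real.log p := by
      rw [div_eq_mul_one_div, mul_comm]
      exact mul_le_mul_of_nonneg_right h4 (Real.log_natCast_nonneg p)
    linarith
  -- (b)
  obtain ⟨V, hV⟩ : ∃ V : ℕ, V = W / 2 ^ 15 := ⟨_, rfl⟩
  have hWN : 2 ^ 15 ≤ W := by exact_mod_cast hWbig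
  have hV1 : 1 ≤ V := by
    rw [hV]
    exact (Nat.one_le_div_iff (by norm_num)).2 hWN
  have hVW : (V : ℝ) ≤ W / 2 ^ 15 := by
    rw [le_div_iff₀ (by norm_num), hV]
    exact_mod_cast Nat.div_mul_le_self W (2 ^ 15)
  have hVW2 : (W : ℝ) / 2 ^ 15 < V + 1 := by
    rw [div_lt_iff₀ (by norm_num), hV]
    have h4 := Nat.lt_succ_self (W / 2 ^ 15)
    rw [Nat.div_lt_iff_lt_mul (by norm_num)] at h4
    exact_mod_cast h4
  have hVleW : V ≤ W := by
    rw [hV]
    exact Nat.div_le_self _ _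
  have hsub2 : Helper56.CP.PP V ⊆ Helper56.CP.PP W := by
    intro p hp
    rw [Helper56.CP.PP, mem_filter, mem_range] at hp ⊢
    exact ⟨by omega, hp.2⟩
  obtain ⟨G, hG⟩ : ∃ G : ℝ, G = ((W : ℝ) / 2 ^ 15) ^ (1 - σ) := ⟨_, rfl⟩
  have hG0 : 0 ≤ G := by rw [hG]; positivity
  have hB : 1 / 2 * G * (Helper56.CP.mtA W - Helper56.CP.mtA V) ≤ omy y σ (z ^ σ) := by
    have h4 : Helper56.CP.mtA W - Helper56.CP.mtA V =
        ∑ p ∈ Helper56.CP.PP W \ Helper56.CP.PP V, Real.log p / p := by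
      rw [Helper56.CP.mtA, Helper56.CP.mtA, ← sum_sdiff hsub2]
      ring
    rw [h4, hom, mul_sum]
    refine le_trans (sum_le_sum fun p hp => ?_) (sum_le_sum_of_subset_of_nonneg
      (sdiff_subset.trans hsub) fun p hp _ => hf0 p hp)
    have hp' := mem_sdiff.1 hp
    refine le_trans ?_ (hterm p hp'.1)
    have hpp : p.Prime := (mem_filter.1 hp'.1).2
    have hp0 : (0 : ℝ) < p := by exact_mod_cast hpp.pos
    have hpV : V < p := by
      by_contra hcon
      apply hp'.2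
      rw [Helper56.CP.PP, mem_filter, mem_range]
      exact ⟨by omega, hpp⟩
    have h5 : (W : ℝ) / 2 ^ 15 ≤ p := by
      have h6 : (V : ℝ) + 1 ≤ p := by exact_mod_cast hpV
      linarith
    have h6 : aa σ p = (p : ℝ) ^ (1 - σ) / p := by
      unfold aa
      rw [Real.rpow_sub hp0, Real.rpow_one, Real.rpow_neg hp0.le]
      field_simp
    have h7 : G ≤ (p : ℝ) ^ (1 - σ) := by
      rw [hG]
      exact Real.rpow_le_rpow (by positivity) h5 (by linarith)
    have h8 : G * (Real.log p / p) ≤ aa σ p * Real.log p := by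
      calc G * (Real.log p / p) ≤ (p : ℝ) ^ (1 - σ) * (Real.log p / p) :=
            mul_le_mul_of_nonneg_right h7 (hlogp p hp'.1)
        _ = aa σ p * Real.log p := by rw [h6]; ring
    linarith
  -- Mertens
  have hmW := abs_le.1 (Helper56.CP.mtE_abs (n := W) (by omega))
  have hmV := abs_le.1 (Helper56.CP.mtE_abs (n := V) hV1)
  rw [Helper56.CP.mtE] at hmW hmV
  have hlogV : Real.log V ≤ Real.log W - 15 * Real.log 2 := by
    have h4 : Real.log (V : ℝ) ≤ Real.log ((W : ℝ) / 2 ^ 15) :=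
      Real.log_le_log (by exact_mod_cast hV1) hVW
    rw [Real.log_div hW0.ne' (by norm_num), Real.log_pow] at h4
    exact_mod_cast h4
  have hlog2 := Real.log_two_gt_d9
  have hlog2' := Real.log_two_lt_d9
  have hdiff : 2 ≤ Helper56.CP.mtA W - Helper56.CP.mtA V := by linarith [hmW.1, hmV.2]
  have hB2 : G ≤ omy y σ (z ^ σ) := by
    have h4 : 1 / 2 * G * 2 ≤ 1 / 2 * G * (Helper56.CP.mtA W - Helper56.CP.mtA V) :=
      mul_le_mul_of_nonneg_left hdiff (by positivity)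
    linarith
  have hGz : z ^ (1 - σ) / 2 ^ 20 ≤ G := by
    have h4 : z / 2 ^ 20 ≤ (W : ℝ) / 2 ^ 15 := by
      rw [div_le_div_iff₀ (by norm_num) (by norm_num)]
      have h5 : (2 : ℝ) ^ 20 = 32 * 2 ^ 15 := by norm_num
      rw [h5]
      have h6 : z ≤ 32 * W := by linarith
      nlinarith [show (0 : ℝ) < 2 ^ 15 by norm_num]
    rw [hG]
    refine le_trans ?_ (Real.rpow_le_rpow (by positivity) h4 (by linarith))
    rw [Real.div_rpow hz0.le (by norm_num)]
    refine div_le_div_of_nonneg_left (by positivity) (by positivity) ?_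
    calc ((2 : ℝ) ^ 20) ^ (1 - σ) ≤ ((2 : ℝ) ^ 20) ^ (1 : ℝ) :=
          Real.rpow_le_rpow_of_exponent_le (by norm_num) (by linarith)
      _ = 2 ^ 20 := Real.rpow_one _
  have hlogz : 20 * Real.log 2 ≤ Real.log z := by
    have h4 := Real.log_le_log (by norm_num) hz32
    rw [Real.log_pow] at h4
    exact_mod_cast h4
  have hlogW : Real.log z - 5 * Real.log 2 ≤ Real.log W := by
    have h4 := Real.log_le_log (by positivity) hWge
    rw [Real.log_div hz0.ne' (by norm_num), show (32 : ℝ) = 2 ^ 5 by norm_num, Real.log_pow] at h4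
    exact_mod_cast h4
  have hA2 : 1 / 4 * Real.log z ≤ omy y σ (z ^ σ) := by linarith [hmW.1]
  have hz1 : 0 ≤ Real.log z := by linarith
  have h9 : (1 : ℝ) / 2 ^ 21 * Real.log z ≤ 1 / 8 * Real.log z :=
    mul_le_mul_of_nonneg_right (by norm_num) hz1
  have h10 : z ^ (1 - σ) / 2 ^ 20 ≤ omy y σ (z ^ σ) := hGz.trans hB2
  have h11 : (1 : ℝ) / 2 ^ 21 * (Real.log z + z ^ (1 - σ)) =
      1 / 2 ^ 21 * Real.log z + (z ^ (1 - σ) / 2 ^ 20) / 2 := by ring
  rw [h11]
  linarith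

end Pool.Agent.Helper57.QZ
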